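import Mathlib
import Pool.Agent.H29.Om

set_option autoImplicit false

namespace Pool.Agent.Results.MP_39d387_al.Counter
open Set Filter Topology Pool.Agent.H29.Om Cardinal

/-- Every locally finite family of nonempty open sets is finite. -/
def Pseudocompact (X : Type) [TopologicalSpace X] : Prop :=
  ∀ (ι : Type) (U : ι → Set X), (∀ i, IsOpen (U i)) → (∀ i, (U i).Nonempty) → LocallyFinite U →
    Finite ι

/-- 2-pseudocompactness, written additively. -/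
def TwoPseudocompact (G : Type) [AddGroup G] [TopologicalSpace G] : Prop :=
  ∀ U : ℕ → Set G, (∀ n, IsOpen (U n)) → (∀ n, (U n).Nonempty) → (∀ n, U (n + 1) ⊆ U n) →
    (⋂ n, closure {x | -x ∈ U n}).Nonempty

abbrev K : Type := AddCircle (1 : ℝ)
abbrev L : Type := Lex (Omᵒᵈ →₀ ℚ)

theorem exists_phi : ∃ φ : K →+ L, ∀ C : Set L, C.Countable → ∀ U ∈ 𝓝 (0 : K), ∃ x ∈ U,
    ∀ c ∈ C, c < φ x := by
  classical
  let b := Module.Free.chooseBasis ℚ ℝ
  have hle : #Om ≤ #(Module.Free.ChooseBasisIndex ℚ ℝ) := by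
    rw [← Module.Free.rank_eq_card_chooseBasisIndex, Real.rank_rat_real, mk_Om]
    exact aleph_one_le_continuum
  obtain ⟨j⟩ := hle
  let p : ℝ →ₗ[ℚ] (Om →₀ ℚ) := Finsupp.lcomapDomain j j.injective ∘ₗ b.repr.toLinearMap
  obtain ⟨a0, ha0⟩ := exists_gt (p 1).support.countable_toSet
  let q : ℝ →+ (Om →₀ ℚ) := (Finsupp.filterAddHom (a0 ≤ ·)).comp p.toAddMonoidHom
  have q1 : q 1 = 0 := (Finsupp.filter_eq_zero_iff _ _).2 fun a ha => by
    by_contra h
    exact absurd (ha0 a (Finsupp.mem_support_iff.2 h)) (not_lt.2 ha)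
  refine ⟨QuotientAddGroup.lift _ q ?_, fun C hC U hU => ?_⟩
  · rintro _ ⟨n, rfl⟩
    show q (n • 1) = 0
    rw [map_zsmul, q1, smul_zero]
  obtain ⟨a, ha⟩ := exists_gt (S := insert a0 (⋃ c ∈ C, ((show Om →₀ ℚ from c).support : Set Om)))
    ((hC.biUnion fun c _ => Finset.countable_toSet _).insert _)
  have ht : Tendsto (fun n : ℕ => (((1 / ((n : ℝ) + 1) * b (j a) : ℝ)) : K)) atTop (𝓝 0) := by
    have := (AddCircle.continuous_mk' (1 : ℝ)).tendsto 0
    refine this.comp ?_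
    simpa using (tendsto_one_div_add_atTop_nhds_zero_nat (𝕜 := ℝ)).mul_const (b (j a))
  obtain ⟨n, hn⟩ := (ht.eventually hU).exists
  refine ⟨_, hn, fun c hc => ?_⟩
  have e : ∀ i, q (1 / ((n : ℝ) + 1) * b (j a)) i = if a = i then 1 / ((n : ℚ) + 1) else 0 := by
    intro i
    have : 1 / ((n : ℝ) + 1) * b (j a) = (1 / ((n : ℚ) + 1)) • b (j a) := by
      rw [Rat.smul_def]; push_cast; rfl
    rw [this]
    show Finsupp.filter (a0 ≤ ·) (p _) i = _
    by_cases h : a = i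
    · subst h
      simp [p, (ha a0 (mem_insert _ _)).le]
    · simp [p, Finsupp.filter_apply, h]
  have z : ∀ i, a ≤ i → (show Om →₀ ℚ from c) i = 0 := fun i hi => by
    by_contra h
    exact absurd (ha i (mem_insert_of_mem _ (mem_biUnion hc (Finsupp.mem_support_iff.2 h))))
      (not_lt.2 hi)
  refine ⟨OrderDual.toDual a, fun i hi => ?_, ?_⟩
  · have hi' : a < OrderDual.ofDual i := hi
    exact (z _ hi'.le).trans ((e _).trans (if_neg hi'.ne)).symm
  · exact (z a le_rfl).trans_lt (lt_of_lt_of_eq (by positivity) ((e a).trans (if_pos rfl)).symm)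

noncomputable def φ : K →+ L := exists_phi.choose

theorem high {C : Set L} (hC : C.Countable) {V : Set K} (hV : IsOpen V) (hne : V.Nonempty) :
    ∃ x ∈ V, ∀ c ∈ C, c < φ x := by
  obtain ⟨v, hv⟩ := hne
  obtain ⟨x, hx, h⟩ := exists_phi.choose_spec _ (hC.image (· - φ v)) ((v + ·) ⁻¹' V)
    ((hV.preimage (continuous_const_add v)).mem_nhds (by simpa using hv))
  exact ⟨v + x, hx, fun c hc => by rw [map_add]; exact sub_lt_iff_lt_add'.1 (h _ ⟨c, hc, rfl⟩)⟩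

def G : Type := K

noncomputable instance : AddCommGroup G := inferInstanceAs (AddCommGroup K)

def Op (W : Set K) : Prop := ∀ x ∈ W, ∃ V : Set K, IsOpen V ∧ x ∈ V ∧ ∀ y ∈ V, φ x ≤ φ y → y ∈ W

instance : TopologicalSpace G where
  IsOpen := Op
  isOpen_univ := fun _ _ => ⟨univ, isOpen_univ, trivial, fun _ _ _ => trivial⟩
  isOpen_inter := fun _ _ h1 h2 x hx => by
    obtain ⟨V, a, b, c⟩ := h1 x hx.1
    obtain ⟨V', a', b', c'⟩ := h2 x hx.2
    exact ⟨V ∩ V', a.inter a', ⟨b, b'⟩, fun y hy h => ⟨c y hy.1 h, c' y hy.2 h⟩⟩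
  isOpen_sUnion := fun _ h x ⟨W, hW, hx⟩ => by
    obtain ⟨V, a, b, c⟩ := h W hW x hx
    exact ⟨V, a, b, fun y hy h => ⟨W, hW, c y hy h⟩⟩

theorem basic {V : Set K} (hV : IsOpen V) (l : L) : IsOpen (X := G) {y : K | y ∈ V ∧ l ≤ φ y} :=
  fun _ hx => ⟨V, hV, hx.1, fun _ hy h => ⟨hy, hx.2.trans h⟩⟩

theorem op {V : Set K} (hV : IsOpen V) : IsOpen (X := G) V :=
  fun _ hx => ⟨V, hV, hx, fun _ hy _ => hy⟩

theorem cadd : ContinuousAdd G := by
  refine ⟨continuous_def.2 fun W hW => isOpen_prod_iff.2 fun x y hxy => ?_⟩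
  obtain ⟨V, a, b, c⟩ := hW _ hxy
  obtain ⟨V1, V2, a1, a2, b1, b2, h⟩ := isOpen_prod_iff.1 (a.preimage (continuous_add (M := K))) x y b
  refine ⟨_, _, basic a1 (φ x), basic a2 (φ y), ⟨b1, le_rfl⟩, ⟨b2, le_rfl⟩, fun p hp => ?_⟩
  refine c _ (h (a := (p.1, p.2)) ⟨hp.1.1, hp.2.1⟩) ?_
  exact ((map_add φ x y).trans_le (add_le_add hp.1.2 hp.2.2)).trans_eq (map_add φ p.1 p.2).symm

theorem psc : Pseudocompact G := by
  intro ι U h1 h2 h3
  by_contra hc
  have : Infinite ι := not_finite_iff_infinite.1 hc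
  choose x hx using h2
  obtain ⟨z, hz⟩ := exists_clusterPt_of_compactSpace (X := K) (map x cofinite)
  obtain ⟨t, ht, hf⟩ := h3 z
  obtain ⟨W, hWt, hW, hzW⟩ := mem_nhds_iff.1 ht
  obtain ⟨V, a, b, c⟩ := hW z hzW
  have := (mapClusterPt_iff_frequently.1 hz) V (a.mem_nhds b)
  refine frequently_cofinite_iff_infinite.1 this (hf.subset fun i hi => ?_)
  obtain ⟨V', a', b', c'⟩ := h1 i _ (hx i)
  obtain ⟨y, hy, h⟩ := high (C := {φ z, φ (x i)}) (toFinite _).countable (a.inter a') ⟨x i, hi, b'⟩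
  exact ⟨y, c' y hy.2 (h _ (by simp)).le, hWt (c y hy.1 (h _ (by simp)).le)⟩

theorem baire : BaireSpace G := by
  refine ⟨fun D hD hd => dense_iff_inter_open.2 fun W hW ⟨w, hw⟩ => ?_⟩
  obtain ⟨V0, a0, b0, c0⟩ := hW w hw
  obtain ⟨B, hBc, hBe, hB⟩ := TopologicalSpace.exists_countable_basis K
  have : ∀ (n : ℕ) (O : B), ∃ (x : K) (V : Set K), x ∈ O.1 ∧ IsOpen V ∧ x ∈ V ∧
      ∀ y ∈ V, φ x ≤ φ y → y ∈ D n := fun n O => by
    obtain ⟨x, h1, h2⟩ := dense_iff_inter_open.1 (hd n) _ (op (hB.isOpen O.2))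
      (nonempty_iff_ne_empty.2 fun h => hBe (h ▸ O.2))
    obtain ⟨V, h⟩ := hD n x h2
    exact ⟨x, V, h1, h⟩
  choose x V h1 h2 h3 h4 using this
  have := hBc.to_subtype
  obtain ⟨t, ht, hh⟩ := high (C := insert (φ w) (range fun p : ℕ × B => φ (x p.1 p.2)))
    ((countable_range _).insert _) a0 ⟨w, b0⟩
  have hR : (⋂ n, ⋃ O, V n O) ∈ residual K := (countable_iInter_mem).2 fun n =>
    residual_of_dense_open (isOpen_iUnion (h2 n)) (hB.dense_iff.2 fun O hO _ =>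
      ⟨x n ⟨O, hO⟩, h1 n ⟨O, hO⟩, mem_iUnion.2 ⟨_, h3 n ⟨O, hO⟩⟩⟩)
  have r1 := (Homeomorph.addLeft t).residual_map_eq.le hR
  have r2 := (Homeomorph.subLeft t).residual_map_eq.le hR
  obtain ⟨n, ⟨n1, n2⟩, n3, n4⟩ := dense_iff_inter_open.1 (dense_of_mem_residual (inter_mem r1 r2))
    ((t + ·) ⁻¹' V0 ∩ (t - ·) ⁻¹' V0)
    ((a0.preimage (by fun_prop)).inter (a0.preimage (by fun_prop))) ⟨0, by simpa using ht⟩
  have key : ∀ y : K, y ∈ V0 → y ∈ ⋂ n, ⋃ O, V n O → φ t ≤ φ y → (W ∩ ⋂ n, D n).Nonempty := by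
    intro y y1 y2 y3
    refine ⟨y, c0 y y1 ((hh _ (mem_insert _ _)).le.trans y3), mem_iInter.2 fun n => ?_⟩
    obtain ⟨O, hO⟩ := mem_iUnion.1 (mem_iInter.1 y2 n)
    exact h4 n O y hO ((hh _ (mem_insert_of_mem _ ⟨(n, O), rfl⟩)).le.trans y3)
  rcases le_total 0 (φ n) with h | h
  · exact key (t + n) n1 n3 (by rw [map_add]; exact le_add_of_nonneg_right h)
  · exact key (t - n) n2 n4 (by rw [map_sub]; exact (le_sub_self_iff _).2 h)

theorem not2 : ¬ TwoPseudocompact G := by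
  intro h
  obtain ⟨t, -, ht⟩ := high (C := {0}) (countable_singleton _) isOpen_univ univ_nonempty
  obtain ⟨z, hz⟩ := h (fun n => {y : K | y ∈ Metric.ball (0 : K) (1 / ((n : ℝ) + 1)) ∧ φ t ≤ φ y})
    (fun n => basic Metric.isOpen_ball _) (fun n => by
      obtain ⟨x, h1, h2⟩ := high (C := {φ t}) (countable_singleton _)
        (Metric.isOpen_ball (x := (0 : K)) (ε := 1 / ((n : ℝ) + 1)))
        ⟨0, Metric.mem_ball_self (by positivity)⟩
      exact ⟨x, h1, (h2 _ rfl).le⟩)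
    fun n y hy => ⟨Metric.ball_subset_ball (by push_cast; gcongr; linarith) hy.1, hy.2⟩
  by_cases h0 : z = 0
  · subst h0
    obtain ⟨y, y1, y2⟩ := mem_closure_iff.1 (mem_iInter.1 hz 0) _ (basic isOpen_univ 0)
      ⟨trivial, (map_zero φ).ge⟩
    have h3 : φ t ≤ -φ y := y2.2.trans_eq (map_neg φ y)
    exact absurd (h3.trans (neg_nonpos.2 y1.2)) (not_le.2 (ht 0 rfl))
  · have h1 : 0 < ‖(show K from z)‖ := norm_pos_iff.2 h0
    obtain ⟨n, hn⟩ := exists_nat_one_div_lt h1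
    obtain ⟨y, y1, y2⟩ := mem_closure_iff.1 (mem_iInter.1 hz n) _
      (op (isOpen_lt (continuous_const (y := 1 / ((n : ℝ) + 1))) (continuous_norm (E := K)))) hn
    have h3 : ‖-(show K from y)‖ < 1 / ((n : ℝ) + 1) := mem_ball_zero_iff.1 y2.1
    rw [norm_neg] at h3
    exact lt_asymm h3 y1

theorem result : ∃ (H : Type) (_ : AddGroup H) (_ : TopologicalSpace H),
    ContinuousAdd H ∧ Pseudocompact H ∧ BaireSpace H ∧ ¬ TwoPseudocompact H :=
  ⟨G, inferInstance, inferInstance, cadd, psc, baire, not2⟩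

end Pool.Agent.Results.MP_39d387_al.Counter
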